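import Mathlib

/-!
# Lemma B: a tree plus one vertex

`T` a tree, `N` a set of vertices with `|N| ≠ 1` (the neighbours of an extra vertex `e`).
There is a closed non-empty set `S` of vertices of `T` (even towards every vertex outside `S` and
towards `e`) which has no splitting: for every `B ⊆ S` with `B` and `S \ B` even towards each other
the number of edges between `B` and the outside (with `e`) is even.
-/

namespace Pool.Agent.H72.TB

open Finset

/-- A rooted description of a tree. -/
theorem tree_rooted {W : Type*} (T : SimpleGraph W) (hT : T.IsTree) (r : W) :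
    ∃ (p : W → W) (d : W → ℕ), (∀ v, v ≠ r → d v = d (p v) + 1) ∧
      ∀ v w, T.Adj v w ↔ (v ≠ r ∧ p v = w) ∨ (w ≠ r ∧ p w = v) := by
  classical
  have hex : ∀ v, v ≠ r → ∃ w, T.Adj v w ∧ T.dist r v = T.dist r w + 1 := by
    intro v hv
    obtain ⟨q, hq⟩ := hT.connected.exists_walk_length_eq_dist v r
    cases q with
    | nil => exact absurd rfl hv
    | @cons _ w _ h q' =>
      refine ⟨w, h, ?_⟩
      rcases hT.dist_eq_dist_add_one_of_adj r h with h1 | h1
      · exact h1
      · exfalso
        have h2 : T.dist w r ≤ q'.length := SimpleGraph.dist_le q'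
        rw [SimpleGraph.Walk.length_cons] at hq
        have h3 := SimpleGraph.dist_comm (G := T) (u := w) (v := r)
        have h4 := SimpleGraph.dist_comm (G := T) (u := v) (v := r)
        omega
  have huniq : ∀ v w₁ w₂, T.Adj v w₁ → T.Adj v w₂ → T.dist r v = T.dist r w₁ + 1 →
      T.dist r v = T.dist r w₂ + 1 → w₁ = w₂ := by
    intro v w₁ w₂ h1 h2 d1 d2
    obtain ⟨P, hP, hPl⟩ := hT.connected.exists_path_of_dist r v
    have key : ∀ w, T.Adj v w → T.dist r v = T.dist r w + 1 → w = P.penultimate := by
      intro w hw dw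
      obtain ⟨Q, hQ, hQl⟩ := hT.connected.exists_path_of_dist r w
      have hvq : v ∉ Q.support := by
        intro hv
        have := SimpleGraph.dist_le (Q.takeUntil v hv)
        have h5 := Q.length_takeUntil_le_length hv
        omega
      exact hT.isAcyclic.eq_penultimate_of_adj_end hP hw
        (hT.isAcyclic.mem_support_of_ne_mem_support_of_adj_of_isPath hP hQ hw hvq)
    rw [key w₁ h1 d1, key w₂ h2 d2]
  choose f hf using hex
  obtain ⟨P, hP⟩ : ∃ P : W → W, ∀ v (h : v ≠ r), P v = f v h :=
    ⟨fun v => if h : v ≠ r then f v h else v, fun v h => dif_pos h⟩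
  refine ⟨P, fun v => T.dist r v, ?_, ?_⟩
  · intro v hv
    show T.dist r v = T.dist r (P v) + 1
    rw [hP v hv]
    exact (hf v hv).2
  · intro v w
    constructor
    · intro h
      rcases hT.dist_eq_dist_add_one_of_adj r h with h1 | h1
      · left
        have hv : v ≠ r := by
          rintro rfl
          rw [SimpleGraph.dist_self] at h1
          omega
        refine ⟨hv, ?_⟩
        rw [hP v hv]
        exact huniq v _ _ (hf v hv).1 h (hf v hv).2 h1
      · right
        have hw : w ≠ r := by
          rintro rfl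
          rw [SimpleGraph.dist_self] at h1
          omega
        refine ⟨hw, ?_⟩
        rw [hP w hw]
        exact huniq w _ _ (hf w hw).1 h.symm (hf w hw).2 h1
    · rintro (⟨hv, h⟩ | ⟨hw, h⟩)
      · rw [hP v hv] at h
        rw [← h]
        exact (hf v hv).1
      · rw [hP w hw] at h
        rw [← h]
        exact (hf w hw).1.symm

section Rooted

variable {W : Type*} [Fintype W] [DecidableEq W] (r : W) (p : W → W) (d : W → ℕ)

/-- children of `v` -/
def ch (v : W) : Finset W := univ.filter (fun c => c ≠ r ∧ p c = v)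

/-- The subtree parities. -/
theorem exists_n (hd : ∀ v, v ≠ r → d v = d (p v) + 1) (N : Finset W) :
    ∃ n : W → ZMod 2, ∀ v, n v = (if v ∈ N then 1 else 0) + ∑ c ∈ ch r p v, n c := by
  obtain ⟨D, hD⟩ : ∃ D, ∀ v, d v ≤ D := ⟨univ.sup d, fun v => Finset.le_sup (mem_univ v)⟩
  have key : ∀ k, ∃ n : W → ZMod 2, ∀ v, D ≤ d v + k →
      n v = (if v ∈ N then 1 else 0) + ∑ c ∈ ch r p v, n c := by
    intro k
    induction k with
    | zero =>
      refine ⟨fun v => if v ∈ N then 1 else 0, fun v hv => ?_⟩
      have : ch r p v = ∅ := by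
        rw [Finset.eq_empty_iff_forall_notMem]
        intro c hc
        simp only [ch, mem_filter, mem_univ, true_and] at hc
        have h1 := hd c hc.1
        have h2 := hD c
        rw [hc.2] at h1
        omega
      rw [this]
      simp
    | succ k ih =>
      obtain ⟨n, hn⟩ := ih
      refine ⟨fun v => if D ≤ d v + k then n v else
        (if v ∈ N then 1 else 0) + ∑ c ∈ ch r p v, n c, fun v hv => ?_⟩
      have hc : ∀ c ∈ ch r p v, (if D ≤ d c + k then n c else
          (if c ∈ N then 1 else 0) + ∑ c' ∈ ch r p c, n c') = n c := by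
        intro c hc
        simp only [ch, mem_filter, mem_univ, true_and] at hc
        have h1 := hd c hc.1
        rw [hc.2] at h1
        rw [if_pos (by omega)]
      show (if D ≤ d v + k then n v else
        (if v ∈ N then 1 else 0) + ∑ c ∈ ch r p v, n c) = (if v ∈ N then 1 else 0) + ∑ c ∈ ch r p v,
          (if D ≤ d c + k then n c else (if c ∈ N then 1 else 0) + ∑ c' ∈ ch r p c, n c')
      rw [Finset.sum_congr rfl hc]
      split_ifs with h1 h2
      · rw [hn v h1, if_pos h2]
      · rw [hn v h1, if_neg h2]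
      · rfl
      · rfl
  obtain ⟨n, hn⟩ := key D
  exact ⟨n, fun v => hn v (by omega)⟩

/-- Every function summed over children of the members of a set. -/
theorem sum_ch (B : Finset W) (f : W → ZMod 2) :
    ∑ w ∈ B, ∑ c ∈ ch r p w, f c = ∑ c ∈ univ.filter (fun c => c ≠ r), if p c ∈ B then f c else 0 := by
  have h1 : ∀ w ∈ B, ∑ c ∈ ch r p w, f c = ∑ c : W, if c ≠ r ∧ p c = w then f c else 0 := by
    intro w _
    rw [ch, Finset.sum_filter]
  rw [Finset.sum_congr rfl h1, Finset.sum_comm, Finset.sum_filter]
  refine Finset.sum_congr rfl fun c _ => ?_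
  by_cases hc : c ≠ r
  · rw [if_pos hc]
    by_cases hp : p c ∈ B
    · rw [if_pos hp, Finset.sum_eq_single (p c)]
      · rw [if_pos ⟨hc, rfl⟩]
      · intro b _ hb
        rw [if_neg]
        exact fun h => hb h.2.symm
      · intro h
        exact absurd hp h
    · rw [if_neg hp]
      refine Finset.sum_eq_zero fun b hb => ?_
      rw [if_neg]
      intro h
      exact hp (by rw [h.2]; exact hb)
  · rw [if_neg hc]
    refine Finset.sum_eq_zero fun b hb => ?_
    rw [if_neg]
    exact fun h => hc h.1

/-- Number of neighbours in `B`, mod 2. -/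
theorem nbr_sum (T : SimpleGraph W) [DecidableRel T.Adj] (hd : ∀ v, v ≠ r → d v = d (p v) + 1)
    (hadj : ∀ v w, T.Adj v w ↔ (v ≠ r ∧ p v = w) ∨ (w ≠ r ∧ p w = v)) (B : Finset W) (v : W) :
    (∑ w ∈ B, if T.Adj v w then (1 : ZMod 2) else 0) =
      (if v ≠ r ∧ p v ∈ B then 1 else 0) + ∑ c ∈ ch r p v, if c ∈ B then 1 else 0 := by
  have h1 : ∀ w ∈ B, (if T.Adj v w then (1 : ZMod 2) else 0) =
      (if v ≠ r ∧ p v = w then 1 else 0) + (if w ≠ r ∧ p w = v then 1 else 0) := by
    intro w _
    by_cases h2 : v ≠ r ∧ p v = w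
    · have h3 : ¬ (w ≠ r ∧ p w = v) := by
        intro h3
        have e1 := hd v h2.1
        have e2 := hd w h3.1
        rw [h2.2] at e1
        rw [h3.2] at e2
        omega
      rw [if_pos ((hadj v w).mpr (Or.inl h2)), if_pos h2, if_neg h3, add_zero]
    · by_cases h3 : w ≠ r ∧ p w = v
      · rw [if_pos ((hadj v w).mpr (Or.inr h3)), if_neg h2, if_pos h3, zero_add]
      · rw [if_neg, if_neg h2, if_neg h3, add_zero]
        intro h4
        rcases (hadj v w).mp h4 with h5 | h5
        · exact h2 h5
        · exact h3 h5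
  rw [Finset.sum_congr rfl h1, Finset.sum_add_distrib]
  congr 1
  · by_cases hv : v ≠ r ∧ p v ∈ B
    · rw [if_pos hv, Finset.sum_eq_single (p v)]
      · rw [if_pos ⟨hv.1, rfl⟩]
      · intro b _ hb
        rw [if_neg]
        exact fun h => hb h.2.symm
      · intro h
        exact absurd hv.2 h
    · rw [if_neg hv]
      refine Finset.sum_eq_zero fun b hb => ?_
      rw [if_neg]
      rintro ⟨h2, h3⟩
      exact hv ⟨h2, by rw [h3]; exact hb⟩
  · rw [ch, Finset.sum_filter, ← Finset.sum_filter_add_sum_filter_not univ (fun c => c ∈ B)]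
    have e1 : (∑ c ∈ univ.filter (fun c => c ∉ B),
        if c ≠ r ∧ p c = v then (if c ∈ B then (1 : ZMod 2) else 0) else 0) = 0 := by
      refine Finset.sum_eq_zero fun c hc => ?_
      rw [mem_filter] at hc
      rw [if_neg hc.2, ite_self]
    rw [e1, add_zero]
    have e2 : univ.filter (fun c => c ∈ B) = B := by
      ext c
      simp
    rw [e2]
    refine Finset.sum_congr rfl fun c hc => ?_
    rw [if_pos hc]

/-- The count of edges leaving `B`. -/
theorem total (T : SimpleGraph W) [DecidableRel T.Adj] (hd : ∀ v, v ≠ r → d v = d (p v) + 1)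
    (hadj : ∀ v w, T.Adj v w ↔ (v ≠ r ∧ p v = w) ∨ (w ≠ r ∧ p w = v)) (N : Finset W)
    (n : W → ZMod 2) (hn : ∀ v, n v = (if v ∈ N then 1 else 0) + ∑ c ∈ ch r p v, n c)
    (S B : Finset W) (hB : B ⊆ S) (H1 : ∀ c, c ≠ r → c ∈ S → p c ∈ S → (c ∈ B ↔ p c ∈ B))
    (H2 : ∀ c, c ≠ r → c ∈ S → p c ∉ S → n c = 1)
    (H3 : ∀ c, c ≠ r → c ∉ S → p c ∈ S → n c = 0) :
    (∑ v ∈ Sᶜ, ∑ w ∈ B, if T.Adj v w then (1 : ZMod 2) else 0) +
      (∑ w ∈ B, if w ∈ N then (1 : ZMod 2) else 0) =
      (if r ∈ B then n r else 0) +
        ∑ c ∈ univ.filter (fun c => c ≠ r), if c ∉ S ∧ p c ∈ B then 1 else 0 := by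
  have hN : ∀ w ∈ B, (if w ∈ N then (1 : ZMod 2) else 0) = n w + ∑ c ∈ ch r p w, n c := by
    intro w _
    rw [hn w, add_assoc, CharTwo.add_self_eq_zero, add_zero]
  rw [Finset.sum_congr rfl hN, Finset.sum_add_distrib, sum_ch,
    Finset.sum_congr rfl (fun v _ => nbr_sum r p d T hd hadj B v), Finset.sum_add_distrib,
    sum_ch r p Sᶜ (fun c => if c ∈ B then (1 : ZMod 2) else 0)]
  have e1 : (∑ v ∈ Sᶜ, if v ≠ r ∧ p v ∈ B then (1 : ZMod 2) else 0) =
      ∑ c ∈ univ.filter (fun c => c ≠ r), if c ∉ S ∧ p c ∈ B then 1 else 0 := by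
    rw [Finset.sum_filter, ← Finset.sum_subset (Finset.subset_univ Sᶜ)]
    · refine Finset.sum_congr rfl fun v hv => ?_
      rw [mem_compl] at hv
      by_cases h1 : v ≠ r
      · by_cases h2 : p v ∈ B
        · simp [h1, h2, hv]
        · simp [h2]
      · simp [h1]
    · intro v _ hv
      have hv' : v ∈ S := by simpa using hv
      simp [hv']
  have e2 : (∑ w ∈ B, n w) = (if r ∈ B then n r else 0) +
      ∑ c ∈ univ.filter (fun c => c ≠ r), if c ∈ B then n c else 0 := by
    rw [← Finset.sum_ite_mem_eq B n, ← Finset.sum_filter_add_sum_filter_not univ (fun c => c ≠ r)]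
    have : univ.filter (fun c : W => ¬ c ≠ r) = {r} := by
      ext c
      simp
    rw [this, Finset.sum_singleton, add_comm]
  have e3 : (∑ c ∈ univ.filter (fun c => c ≠ r),
        if p c ∈ Sᶜ then (if c ∈ B then (1 : ZMod 2) else 0) else 0) +
      ((∑ c ∈ univ.filter (fun c => c ≠ r), if c ∈ B then n c else 0) +
        ∑ c ∈ univ.filter (fun c => c ≠ r), if p c ∈ B then n c else 0) = 0 := by
    rw [← Finset.sum_add_distrib, ← Finset.sum_add_distrib]
    refine Finset.sum_eq_zero fun c hc => ?_
    have hc' : c ≠ r := by simpa using hc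
    by_cases h1 : c ∈ B
    · by_cases h2 : p c ∈ S
      · have h3 := (H1 c hc' (hB h1) h2).mp h1
        have h4 : p c ∉ Sᶜ := by simpa using h2
        rw [if_neg h4, if_pos h1, if_pos h3, zero_add]
        exact CharTwo.add_self_eq_zero _
      · have h3 : p c ∉ B := fun h => h2 (hB h)
        have h4 : p c ∈ Sᶜ := by simpa using h2
        rw [if_pos h4, if_pos h1, if_pos h1, if_neg h3, H2 c hc' (hB h1) h2, add_zero]
        exact CharTwo.add_self_eq_zero _
    · rw [if_neg h1, if_neg h1, ite_self, zero_add, zero_add]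
      by_cases h2 : p c ∈ B
      · have h3 : c ∉ S := fun h => h1 ((H1 c hc' h (hB h2)).mpr h2)
        rw [H3 c hc' h3 (hB h2), ite_self]
      · rw [if_neg h2]
  rw [e1, e2]
  have e4 : ∀ a b c' x y : ZMod 2, b + (x + y) = 0 → a + b + (c' + x + y) = c' + a := by
    decide
  exact e4 _ _ _ _ _ e3

/-- No edge between `B` and `S \ B`. -/
theorem nocross (T : SimpleGraph W) [DecidableRel T.Adj] (hd : ∀ v, v ≠ r → d v = d (p v) + 1)
    (hadj : ∀ v w, T.Adj v w ↔ (v ≠ r ∧ p v = w) ∨ (w ≠ r ∧ p w = v))
    (S B : Finset W) (hB : B ⊆ S) (h1 : ∀ v ∈ S \ B, Even (B.filter (T.Adj v)).card)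
    (h2 : ∀ v ∈ B, Even ((S \ B).filter (T.Adj v)).card) :
    ∀ c, c ≠ r → c ∈ S → p c ∈ S → (c ∈ B ↔ p c ∈ B) := by
  classical
  have key : ∀ x y, T.Adj x y → x ∈ S → y ∈ S → (x ∈ B ↔ y ∈ B) := by
    by_contra hcon
    push Not at hcon
    obtain ⟨x₀, y₀, ha₀, hx₀, hy₀, hn₀⟩ := hcon
    have hX : (univ.filter (fun x => x ∈ S ∧ ∃ y, T.Adj x y ∧ y ∈ S ∧ ¬ (x ∈ B ↔ y ∈ B))).Nonempty := by
      refine ⟨x₀, ?_⟩
      rw [mem_filter]
      refine ⟨mem_univ _, hx₀, y₀, ha₀, hy₀, ?_⟩
      tauto
    obtain ⟨x, hx, hmax⟩ := Finset.exists_max_image _ d hX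
    rw [mem_filter] at hx
    obtain ⟨-, hxS, y, hxy, hyS, hn⟩ := hx
    obtain ⟨C, hCe, hC⟩ : ∃ C : Finset W, Even C.card ∧
        ∀ z, z ∈ C ↔ (T.Adj x z ∧ z ∈ S ∧ ¬ (x ∈ B ↔ z ∈ B)) := by
      by_cases hxB : x ∈ B
      · refine ⟨_, h2 x hxB, fun z => ?_⟩
        rw [mem_filter, mem_sdiff]
        tauto
      · refine ⟨_, h1 x (mem_sdiff.mpr ⟨hxS, hxB⟩), fun z => ?_⟩
        rw [mem_filter]
        constructor
        · rintro ⟨hz, hz'⟩
          exact ⟨hz', hB hz, by tauto⟩
        · rintro ⟨hz, hz', hz''⟩
          exact ⟨by tauto, hz⟩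
    have hyC : y ∈ C := (hC y).mpr ⟨hxy, hyS, hn⟩
    have hcard : 1 < C.card := by
      have h3 : 0 < C.card := Finset.card_pos.mpr ⟨y, hyC⟩
      obtain ⟨k, hk⟩ := hCe
      omega
    obtain ⟨a, ha, b, hb, hab⟩ := Finset.one_lt_card.mp hcard
    have hch : ∀ z ∈ C, ¬ (z ≠ r ∧ p z = x) := by
      intro z hz hz'
      obtain ⟨q1, q2, q3⟩ := (hC z).mp hz
      have := hmax z (by
        rw [mem_filter]
        refine ⟨mem_univ _, q2, x, q1.symm, hxS, ?_⟩
        tauto)
      have h4 := hd z hz'.1
      rw [hz'.2] at h4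
      omega
    have ha' : p x = a := by
      rcases (hadj x a).mp ((hC a).mp ha).1 with h5 | h5
      · exact h5.2
      · exact absurd h5 (hch a ha)
    have hb' : p x = b := by
      rcases (hadj x b).mp ((hC b).mp hb).1 with h5 | h5
      · exact h5.2
      · exact absurd h5 (hch b hb)
    exact hab (ha'.symm.trans hb')
  intro c hc hcS hpS
  exact key c (p c) ((hadj c (p c)).mpr (Or.inl ⟨hc, rfl⟩)) hcS hpS

/-- reachable from `h` by going down through vertices with `n = 0` -/
inductive Rch (n : W → ZMod 2) (h : W) : W → Prop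
  | base : Rch n h h
  | step (c : W) : Rch n h (p c) → c ≠ r → n c = 0 → Rch n h c

omit [Fintype W] [DecidableEq W] in
theorem Rch.depth (hd : ∀ v, v ≠ r → d v = d (p v) + 1) {n : W → ZMod 2} {h v : W}
    (hv : Rch r p n h v) : v = h ∨ d h < d v := by
  induction hv with
  | base => exact Or.inl rfl
  | step c _ hc _ ih =>
    right
    have := hd c hc
    rcases ih with ih | ih
    · rw [ih] at this
      omega
    · omega

omit [Fintype W] [DecidableEq W] in
theorem Rch.trans {n : W → ZMod 2} {a b c : W} (h1 : Rch r p n a b) (h2 : Rch r p n b c) :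
    Rch r p n a c := by
  induction h2 with
  | base => exact h1
  | step c _ hc hn ih => exact Rch.step c ih hc hn

omit [Fintype W] [DecidableEq W] in
theorem Rch.inv {n : W → ZMod 2} {h v : W} (hv : Rch r p n h v) (hne : v ≠ h) :
    Rch r p n h (p v) ∧ v ≠ r ∧ n v = 0 := by
  cases hv with
  | base => exact absurd rfl hne
  | step _ h1 h2 h3 => exact ⟨h1, h2, h3⟩

end Rooted

theorem cast_filter {W : Type*} [DecidableEq W] (B : Finset W) (P : W → Prop) [DecidablePred P] :
    ((B.filter P).card : ZMod 2) = ∑ w ∈ B, if P w then (1 : ZMod 2) else 0 := by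
  rw [Finset.sum_ite, Finset.sum_const_zero, add_zero, Finset.sum_const, nsmul_eq_mul, mul_one]

theorem even_iff (k : ℕ) : Even k ↔ (k : ZMod 2) = 0 := (ZMod.natCast_eq_zero_iff_even).symm

theorem zmod2 (a : ZMod 2) : a = 0 ∨ a = 1 := by
  revert a
  decide

/-- **Lemma B.** -/
theorem lemmaB {W : Type*} [Fintype W] [DecidableEq W] (T : SimpleGraph W) [DecidableRel T.Adj]
    (hT : T.IsTree) (N : Finset W) (hN : N.card ≠ 1) :
    ∃ S : Finset W, S.Nonempty ∧ (∀ v ∉ S, Even (S.filter (T.Adj v)).card) ∧ Even (S ∩ N).card ∧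
      ∀ B ⊆ S, (∀ v ∈ S \ B, Even (B.filter (T.Adj v)).card) →
        (∀ v ∈ B, Even ((S \ B).filter (T.Adj v)).card) →
        Even (∑ v ∈ Sᶜ, (B.filter (T.Adj v)).card + (B ∩ N).card) := by
  classical
  have hgoal : ∀ S B : Finset W, (∑ v ∈ Sᶜ, ∑ w ∈ B, if T.Adj v w then (1 : ZMod 2) else 0) +
      (∑ w ∈ B, if w ∈ N then (1 : ZMod 2) else 0) = 0 →
      Even (∑ v ∈ Sᶜ, (B.filter (T.Adj v)).card + (B ∩ N).card) := by
    intro S B h
    rw [even_iff]
    push_cast
    rw [Finset.sum_congr rfl (fun v _ => cast_filter B (T.Adj v)), ← Finset.filter_mem_eq_inter,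
      cast_filter]
    exact h
  obtain ⟨r₀⟩ := hT.connected.nonempty
  rcases Nat.even_or_odd N.card with hev | hodd
  · -- even case
    obtain ⟨p, d, hd, hadj⟩ := tree_rooted T hT r₀
    obtain ⟨n, hn⟩ := exists_n r₀ p d hd N
    have hnr : n r₀ = (N.card : ZMod 2) := by
      have h1 := total r₀ p d T hd hadj N n hn univ univ (Finset.Subset.refl _)
        (fun c _ _ _ => by simp) (fun c _ _ h => absurd (mem_univ _) h)
        (fun c _ h _ => absurd (mem_univ _) h)
      simp only [compl_univ, sum_empty, zero_add, mem_univ, if_true, not_true_eq_false, false_and,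
        if_false, sum_const_zero, add_zero] at h1
      rw [← h1, Finset.sum_ite_mem]
      simp
    refine ⟨univ, ⟨r₀, mem_univ _⟩, fun v hv => absurd (mem_univ v) hv, ?_, ?_⟩
    · rw [Finset.univ_inter]
      exact hev
    · intro B hB h1 h2
      apply hgoal
      rw [total r₀ p d T hd hadj N n hn univ B hB (nocross r₀ p d T hd hadj univ B hB h1 h2)
        (fun c _ _ h => absurd (mem_univ _) h) (fun c _ h _ => absurd (mem_univ _) h), hnr,
        (even_iff _).mp hev, ite_self, zero_add]
      refine Finset.sum_eq_zero fun c _ => ?_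
      rw [if_neg]
      exact fun h => h.1 (mem_univ _)
  · -- odd case
    obtain ⟨r, hr⟩ : N.Nonempty := by
      rw [← Finset.card_pos]
      exact hodd.pos
    obtain ⟨p, d, hd, hadj⟩ := tree_rooted T hT r
    obtain ⟨n, hn⟩ := exists_n r p d hd N
    have hnr : n r = 1 := by
      have h1 := total r p d T hd hadj N n hn univ univ (Finset.Subset.refl _)
        (fun c _ _ _ => by simp) (fun c _ _ h => absurd (mem_univ _) h)
        (fun c _ h _ => absurd (mem_univ _) h)
      simp only [compl_univ, sum_empty, zero_add, mem_univ, if_true, not_true_eq_false, false_and,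
        if_false, sum_const_zero, add_zero] at h1
      rw [← h1, Finset.sum_ite_mem]
      simp only [univ_inter, sum_const, nsmul_eq_mul, mul_one]
      rcases zmod2 (N.card : ZMod 2) with h2 | h2
      · exact absurd ((even_iff _).mpr h2) (Nat.not_even_iff_odd.mpr hodd)
      · exact h2
    have hne : (N.filter (fun x => Rch r p n r x)).Nonempty := by
      refine ⟨r, ?_⟩
      rw [mem_filter]
      exact ⟨hr, Rch.base⟩
    obtain ⟨h, hh, hmax⟩ := Finset.exists_max_image _ d hne
    rw [mem_filter] at hh
    obtain ⟨hhN, hhr⟩ := hh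
    have hmax' : ∀ x ∈ N, Rch r p n h x → x = h := by
      intro x hx hx'
      rcases hx'.depth r p d hd with h1 | h1
      · exact h1
      · have := hmax x (by
          rw [mem_filter]
          exact ⟨hx, Rch.trans r p hhr hx'⟩)
        omega
    have hnh : h ≠ r → n h = 0 := fun h1 => (Rch.inv r p hhr h1).2.2
    have hlow : ∀ u, d u < d h → ¬ Rch r p n h u := by
      intro u hu hu'
      rcases hu'.depth r p d hd with h1 | h1
      · rw [h1] at hu
        omega
      · omega
    have hle : ∀ u, Rch r p n h u → d h ≤ d u := by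
      intro u hu
      by_contra hcon
      exact hlow u (by omega) hu
    obtain ⟨S, hS⟩ : ∃ S : Finset W, ∀ v, v ∈ S ↔ ¬ Rch r p n h v :=
      ⟨univ.filter (fun v => ¬ Rch r p n h v), fun v => by simp⟩
    have hnS : ∀ v, v ∉ S ↔ Rch r p n h v := fun v => by rw [hS, not_not]
    have hchild : ∀ c, c ≠ r → Rch r p n h (p c) → (if c ∈ S then (1 : ZMod 2) else 0) = n c := by
      intro c hc hpc
      rcases zmod2 (n c) with h1 | h1
      · rw [if_neg ((hnS c).mpr (Rch.step c hpc hc h1)), h1]
      · rw [if_pos, h1]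
        rw [hS]
        intro hcon
        by_cases hch : c = h
        · have h2 := hle _ hpc
          have h3 := hd c hc
          rw [hch] at h3
          rw [hch] at h2
          omega
        · have := (Rch.inv r p hcon hch).2.2
          rw [this] at h1
          exact zero_ne_one h1
    refine ⟨S, ?_, ?_, ?_, ?_⟩
    · by_contra hemp
      rw [Finset.not_nonempty_iff_eq_empty] at hemp
      have : N ⊆ {h} := by
        intro x hx
        rw [mem_singleton]
        exact hmax' x hx ((hnS x).mp (by rw [hemp]; simp))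
      have h2 := Finset.card_le_card this
      rw [Finset.card_singleton] at h2
      have h3 := hodd.pos
      omega
    · intro v hv
      have hv' := (hnS v).mp hv
      rw [even_iff, cast_filter, nbr_sum r p d T hd hadj S v]
      have h1 : (∑ c ∈ ch r p v, if c ∈ S then (1 : ZMod 2) else 0) = ∑ c ∈ ch r p v, n c := by
        refine Finset.sum_congr rfl fun c hc => ?_
        simp only [ch, mem_filter, mem_univ, true_and] at hc
        exact hchild c hc.1 (by rw [hc.2]; exact hv')
      have h2 : (∑ c ∈ ch r p v, n c) = n v + (if v ∈ N then 1 else 0) := by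
        rw [hn v]
        have : ∀ a b : ZMod 2, b = a + b + a := by decide
        exact this _ _
      rw [h1, h2]
      by_cases hvh : v = h
      · have hvN : v ∈ N := by rw [hvh]; exact hhN
        by_cases hhr' : h = r
        · rw [if_neg (fun q : v ≠ r ∧ p v ∈ S => q.1 (hvh.trans hhr')), if_pos hvN, hvh, hhr', hnr]
          decide
        · have h3 : p h ∈ S := by
            rw [hS]
            apply hlow
            have := hd h hhr'
            omega
          have h4 : v ≠ r ∧ p v ∈ S := by
            rw [hvh]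
            exact ⟨hhr', h3⟩
          rw [if_pos h4, if_pos hvN, hvh, hnh hhr']
          decide
      · have h3 := Rch.inv r p hv' hvh
        rw [if_neg (fun q => (hS _).mp q.2 h3.1), if_neg (fun q => hvh (hmax' v q hv')), h3.2.2]
        decide
    · have : S ∩ N = N.erase h := by
        ext x
        rw [mem_inter, mem_erase, hS]
        constructor
        · rintro ⟨h1, h2⟩
          refine ⟨?_, h2⟩
          rintro rfl
          exact h1 Rch.base
        · rintro ⟨h1, h2⟩
          exact ⟨fun q => h1 (hmax' x h2 q), h2⟩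
      rw [this, Finset.card_erase_of_mem hhN]
      obtain ⟨k, hk⟩ := hodd
      rw [hk]
      exact ⟨k, by omega⟩
    · intro B hB h1 h2
      apply hgoal
      have H1 := nocross r p d T hd hadj S B hB h1 h2
      have H3' : ∀ c, c ≠ r → c ∉ S → p c ∈ S → c = h := by
        intro c _ hcS hpc
        by_contra hch
        exact (hS _).mp hpc (Rch.inv r p ((hnS c).mp hcS) hch).1
      rw [total r p d T hd hadj N n hn S B hB H1 ?_ ?_, hnr]
      · have hrS : r ∈ B → h ≠ r := by
          intro q q'
          apply (hS r).mp (hB q)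
          rw [q']
          exact Rch.base
        by_cases hhr' : h = r
        · rw [if_neg (fun q => hrS q hhr'), zero_add]
          refine Finset.sum_eq_zero fun c hc => ?_
          have hc' : c ≠ r := by simpa using hc
          rw [if_neg]
          rintro ⟨q1, q2⟩
          exact hc' ((H3' c hc' q1 (hB q2)).trans hhr')
        · have e1 : (∑ c ∈ univ.filter (fun c => c ≠ r),
              if c ∉ S ∧ p c ∈ B then (1 : ZMod 2) else 0) = if p h ∈ B then 1 else 0 := by
            rw [Finset.sum_eq_single h]
            · have : h ∉ S := (hnS h).mpr Rch.base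
              simp [this]
            · intro c hc hch
              have hc' : c ≠ r := by simpa using hc
              rw [if_neg]
              rintro ⟨q1, q2⟩
              exact hch (H3' c hc' q1 (hB q2))
            · intro q
              exact absurd (by simpa using hhr') q
          rw [e1]
          have hanc : ∀ k u, d u ≤ k → d u < d h → (u ∈ B ↔ r ∈ B) := by
            intro k
            induction k with
            | zero =>
              intro u hu _
              by_cases hur : u = r
              · rw [hur]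
              · have := hd u hur
                omega
            | succ k ih =>
              intro u hu huh
              by_cases hur : u = r
              · rw [hur]
              · have h3 := hd u hur
                have h4 : u ∈ S := (hS u).mpr (hlow u huh)
                have h5 : p u ∈ S := (hS _).mpr (hlow _ (by omega))
                rw [H1 u hur h4 h5]
                exact ih (p u) (by omega) (by omega)
          have h6 := hd h hhr'
          have h7 := hanc (d (p h)) (p h) le_rfl (by omega)
          by_cases h8 : r ∈ B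
          · rw [if_pos h8, if_pos (h7.mpr h8)]
            decide
          · rw [if_neg h8, if_neg (fun q => h8 (h7.mp q))]
            decide
      · intro c hc hcS hpc
        have h3 := hchild c hc ((hnS _).mp hpc)
        rw [if_pos hcS] at h3
        exact h3.symm
      · intro c hc hcS hpc
        have h3 := H3' c hc hcS hpc
        rw [h3]
        exact hnh (by rw [← h3]; exact hc)

end Pool.Agent.H72.TB
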